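import Pool.Agent.Helper51.LT.St
import Pool.Agent.Helper71.TU.X5aux

/-!
# Project LT, module POL
-/

set_option autoImplicit false

namespace Pool.Agent.Helper62.LT

open Complex MeasureTheory Set Metric Filter Topology
open scoped Real ComplexConjugate
open Pool.Agent.Helper51.LT

lemma exists_log_POL {h : ℂ → ℂ} {R : ℝ} (hR : 0 < R) (hd : DifferentiableOn ℂ h (ball 0 R))
    (h0 : ∀ z ∈ ball (0 : ℂ) R, h z ≠ 0) :
    ∃ l : ℂ → ℂ, DifferentiableOn ℂ l (ball 0 R) ∧ ∀ z ∈ ball (0 : ℂ) R, exp (l z) = h z := by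
  have hder : DifferentiableOn ℂ (fun z => deriv h z / h z) (ball 0 R) := by
    apply DifferentiableOn.div _ hd h0
    exact hd.deriv isOpen_ball
  have hz0 : (0 : ℂ) ∈ ball (0 : ℂ) R := by simpa using hR
  obtain ⟨L, hL0, hL⟩ := hder.isExactOn_ball.with_val_at 0 (Complex.log (h 0))
  refine ⟨L, fun z hz => (hL z hz).differentiableAt.differentiableWithinAt, ?_⟩
  have hconst : ∀ z ∈ ball (0 : ℂ) R, HasDerivAt (fun z => h z * exp (-L z)) 0 z := by
    intro z hz
    have e1 : HasDerivAt h (deriv h z) z :=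
      (hd.differentiableAt (isOpen_ball.mem_nhds hz)).hasDerivAt
    have e2 := (hL z hz).neg.cexp
    have e3 := e1.mul e2
    refine e3.congr_deriv ?_
    have := h0 z hz
    simp only [Pi.neg_apply]
    field_simp
    ring
  intro z hz
  have hc : (fun z => h z * exp (-L z)) z = (fun z => h z * exp (-L z)) 0 := by
    apply (convex_ball (0 : ℂ) R).is_const_of_fderivWithin_eq_zero (𝕜 := ℂ) (x := z) (y := 0)
      (f := fun z => h z * exp (-L z))
    · intro w hw
      exact (hconst w hw).differentiableAt.differentiableWithinAt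
    · intro w hw
      rw [fderivWithin_of_isOpen isOpen_ball hw]
      have := (hconst w hw).hasFDerivAt.fderiv
      rw [this]; simp
    · exact hz
    · exact hz0
  have h00 := h0 0 hz0
  simp only [hL0, exp_neg, exp_log h00] at hc
  rw [mul_inv_cancel₀ h00] at hc
  have he := Complex.exp_ne_zero (L z)
  field_simp at hc
  exact hc.symm

/-- Taylor polynomials on the unit circle -/
lemma tay_POL {φ : ℂ → ℂ} {r R C : ℝ} (hr : 1 < r) (hR : r < R)
    (hd : DifferentiableOn ℂ φ (ball 0 R)) (_hC0 : 0 ≤ C)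
    (hC : ∀ z : ℂ, ‖z‖ = r → ‖φ z‖ ≤ C) :
    ∃ a : ℕ → ℂ, ∀ (L : ℕ) (z : ℂ), ‖z‖ = 1 →
      ‖φ z - ∑ k ∈ Finset.range (L + 1), a k * z ^ k‖ ≤ C * (r ^ L)⁻¹ / (r - 1) := by
  have hr0 : 0 < r := by linarith
  refine ⟨fun k => (k.factorial : ℂ)⁻¹ * iteratedDeriv k φ 0, ?_⟩
  have hcoef : ∀ k : ℕ, ‖(k.factorial : ℂ)⁻¹ * iteratedDeriv k φ 0‖ ≤ C * (r⁻¹) ^ k := by
    intro k
    have hcl : DiffContOnCl ℂ φ (ball 0 r) := by
      refine DifferentiableOn.diffContOnCl ?_
      refine hd.mono ?_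
      rw [closure_ball _ hr0.ne']
      intro z hz
      rw [mem_closedBall_zero_iff] at hz
      rw [mem_ball_zero_iff]
      linarith
    have h1 := Complex.norm_iteratedDeriv_le_of_forall_mem_sphere_norm_le (c := 0) k hr0 hcl
      (fun z hz => hC z (by rwa [mem_sphere_zero_iff_norm] at hz))
    have hf : (0 : ℝ) < k.factorial := by exact_mod_cast Nat.factorial_pos k
    rw [norm_mul, norm_inv, Complex.norm_natCast, inv_pow]
    rw [inv_mul_le_iff₀ hf]
    refine h1.trans (le_of_eq ?_)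
    field_simp
  intro L z hz
  have hzb : z ∈ ball (0 : ℂ) R := by rw [mem_ball_zero_iff, hz]; linarith
  have hs := Complex.hasSum_taylorSeries_on_ball hd hzb
  have hs' : HasSum (fun k : ℕ => ((k.factorial : ℂ)⁻¹ * iteratedDeriv k φ 0) * z ^ k) (φ z) := by
    refine hs.congr_fun ?_ |> fun h => h
    intro k
    simp only [sub_zero, smul_eq_mul]
    ring
  have ht := (hasSum_nat_add_iff' (L + 1)).mpr hs'
  have hq : r⁻¹ < 1 := inv_lt_one_of_one_lt₀ hr
  have hq0 : 0 < r⁻¹ := inv_pos.mpr hr0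
  have hg : HasSum (fun k : ℕ => C * (r⁻¹) ^ (L + 1) * (r⁻¹) ^ k)
      (C * (r⁻¹) ^ (L + 1) * (1 - r⁻¹)⁻¹) :=
    (hasSum_geometric_of_lt_one hq0.le hq).mul_left _
  have hb := ht.norm_le_of_bounded hg (by
    intro k
    rw [norm_mul, norm_pow, hz, one_pow, mul_one]
    refine (hcoef _).trans (le_of_eq ?_)
    rw [pow_add]
    ring)
  refine hb.trans (le_of_eq ?_)
  have h1 : r - 1 ≠ 0 := by linarith
  have h2 : (1 : ℝ) - r⁻¹ = (r - 1) / r := by field_simp
  rw [h2, inv_div, inv_pow, pow_succ]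
  field_simp

lemma num_POL (d : ℝ) (L : ℕ) (hd : 0 < d) (hd1 : d ≤ 1)
    (hL : 100 / d * (1 + Real.log (1 / d)) ≤ L) : 8192 / d ^ 5 ≤ (1 + d / 2) ^ L := by
  set u := Real.log (1 / d) with hu
  have hu0 : 0 ≤ u := by
    rw [hu]
    refine Real.log_nonneg ?_
    rw [le_div_iff₀ hd]; linarith
  have hr : 0 < 1 + d / 2 := by linarith
  have hlog : d / 3 ≤ Real.log (1 + d / 2) := by
    have h1 := Real.one_sub_inv_le_log_of_pos hr
    have h2 : d / 3 ≤ 1 - (1 + d / 2)⁻¹ := by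
      have h3 : 1 - (1 + d / 2)⁻¹ = (d / 2) / (1 + d / 2) := by field_simp; ring
      rw [h3, div_le_div_iff₀ (by norm_num) hr]
      nlinarith
    linarith
  have h1 : 33 * (1 + u) ≤ L * Real.log (1 + d / 2) := by
    have hL0 : (0 : ℝ) ≤ 100 / d * (1 + u) := by positivity
    calc 33 * (1 + u) ≤ (100 / d * (1 + u)) * (d / 3) := by
          have : (100 / d * (1 + u)) * (d / 3) = 100 / 3 * (1 + u) := by field_simp
          rw [this]; nlinarith
      _ ≤ L * Real.log (1 + d / 2) :=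
          mul_le_mul hL hlog (by positivity) (Nat.cast_nonneg _)
  have h2 : (1 + d / 2) ^ L = Real.exp (L * Real.log (1 + d / 2)) := by
    rw [mul_comm, Real.exp_mul, Real.exp_log hr, Real.rpow_natCast]
  have h3 : 8192 / d ^ 5 = 8192 * (Real.exp u) ^ 5 := by
    rw [hu, Real.exp_log (by positivity), one_div, inv_pow, div_eq_mul_inv]
  have h4 : (8192 : ℝ) ≤ Real.exp 10 := by
    have h5 : (2.7 : ℝ) ≤ Real.exp 1 := by
      have := Real.exp_one_gt_d9
      linarith
    calc (8192 : ℝ) ≤ 2.7 ^ 10 := by norm_num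
      _ ≤ (Real.exp 1) ^ 10 := pow_le_pow_left₀ (by norm_num) h5 10
      _ = Real.exp 10 := by rw [← Real.exp_nat_mul]; norm_num
  rw [h2, h3]
  calc 8192 * (Real.exp u) ^ 5 ≤ Real.exp 10 * (Real.exp u) ^ 5 :=
        mul_le_mul_of_nonneg_right h4 (by positivity)
    _ = Real.exp (10 + 5 * u) := by
        rw [← Real.exp_nat_mul, ← Real.exp_add]; norm_num
    _ ≤ Real.exp (L * Real.log (1 + d / 2)) := Real.exp_le_exp.mpr (by linarith)

lemma le_of_sq_le_sq_POL {x y : ℝ} (_hx : 0 ≤ x) (h : x ^ 2 ≤ y ^ 2) (hy : 0 ≤ y) : x ≤ y := by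
  nlinarith [sq_nonneg (x - y), sq_nonneg (x + y), abs_le_of_sq_le_sq h hy]

/-- the polynomial before averaging over the roots of unity -/
lemma core_POL (d : ℝ) (f : ℂ → ℂ) (L : ℕ) (hD2 : StD2) (hd : 0 < d) (hd1 : d ≤ 1)
    (hf : Un f (ball 0 (1 + d))) (hL : 100 / d * (1 + Real.log (1 / d)) ≤ L) :
    ∃ p : Polynomial ℂ, ∀ z : ℂ, ‖z‖ = 1 →
      ‖deriv f z * p.eval z * (z ^ L)⁻¹ - (‖deriv f z‖ : ℂ)‖ ≤ 1 / 4 * ‖deriv f z‖ := by
  have hR : 0 < 1 + d := by linarith
  have hne : ∀ z ∈ ball (0 : ℂ) (1 + d), deriv f z ≠ 0 := fun z hz =>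
    Pool.TU.X5.deriv_ne_zero_of_injOn isOpen_ball hf.1 hf.2 hz
  have hz0 : (0 : ℂ) ∈ ball (0 : ℂ) (1 + d) := by simpa using hR
  obtain ⟨l, hl, hle⟩ := exists_log_POL hR (hf.1.deriv isOpen_ball) hne
  set φ : ℂ → ℂ := fun z => exp (l z / 2) with hφ
  set ψ : ℂ → ℂ := fun z => exp (-(l z / 2)) with hψ
  have hφd : DifferentiableOn ℂ φ (ball 0 (1 + d)) := (hl.div_const 2).cexp
  have hψd : DifferentiableOn ℂ ψ (ball 0 (1 + d)) := (hl.div_const 2).neg.cexp
  have hφψ : ∀ z, φ z * ψ z = 1 := by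
    intro z
    rw [hφ, hψ]
    simp only
    rw [← Complex.exp_add, add_neg_cancel, Complex.exp_zero]
  have hφ2 : ∀ z ∈ ball (0 : ℂ) (1 + d), φ z * φ z = deriv f z := by
    intro z hz
    rw [hφ]
    simp only
    rw [← Complex.exp_add, add_halves, hle z hz]
  have hφn : ∀ z ∈ ball (0 : ℂ) (1 + d), ‖φ z‖ * ‖φ z‖ = ‖deriv f z‖ := by
    intro z hz
    rw [← norm_mul, hφ2 z hz]
  set A := ‖φ 0‖ with hA
  have hA0 : 0 < A := norm_pos_iff.mpr (Complex.exp_ne_zero _)
  set M : ℝ := (4 / d) ^ 2 with hM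
  have hM16 : 16 ≤ M := by
    rw [hM, div_pow, le_div_iff₀ (by positivity)]
    nlinarith
  have hψn : ∀ z, ‖ψ z‖ = ‖φ z‖⁻¹ := by
    intro z
    have := congrArg norm (hφψ z)
    rw [norm_mul, norm_one] at this
    exact eq_inv_of_mul_eq_one_right this
  -- distortion on the circle of radius 1 + d/2
  have hbd : ∀ z : ℂ, ‖z‖ ≤ 1 + d / 2 → ‖φ z‖ ≤ A * M ∧ A ≤ M * ‖φ z‖ := by
    intro z hz
    have hzR : ‖z‖ < 1 + d := by linarith
    have hzb : z ∈ ball (0 : ℂ) (1 + d) := by rw [mem_ball_zero_iff]; exact hzR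
    obtain ⟨h1, h2⟩ := hD2 f (1 + d) z 0 hR hf hzR le_rfl zero_le_one
    simp only [Complex.ofReal_zero, zero_mul, sub_zero] at h1 h2
    rw [← hφn z hzb, ← hφn 0 hz0] at h1 h2
    have hx : 0 ≤ ‖φ z‖ := norm_nonneg _
    have h3 : d / 2 ≤ 1 + d - ‖z‖ := by linarith
    have h4 : (d / 2) ^ 4 ≤ (1 + d - ‖z‖) ^ 4 := pow_le_pow_left₀ (by linarith) h3 4
    have h5 : (1 + d) ^ 4 ≤ 2 ^ 4 := pow_le_pow_left₀ (by linarith) (by linarith) 4
    have key : ∀ x y : ℝ, 0 ≤ x → 0 ≤ y →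
        (1 + d - ‖z‖) ^ 4 * (x * x) ≤ (1 + d) ^ 4 * (y * y) → x ≤ y * M := by
      intro x y hx hy hxy
      have h6 : (d / 2) ^ 4 * (x * x) ≤ 2 ^ 4 * (y * y) :=
        (mul_le_mul_of_nonneg_right h4 (by positivity)).trans
          (hxy.trans (mul_le_mul_of_nonneg_right h5 (by positivity)))
      have h7 : ((d / 2) ^ 2 * x) ^ 2 ≤ (2 ^ 2 * y) ^ 2 := by nlinarith
      have h8 : (d / 2) ^ 2 * x ≤ 2 ^ 2 * y := by
        refine le_of_sq_le_sq_POL ?_ h7 (by positivity)
        positivity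
      have h9 : x ≤ 2 ^ 2 * y / (d / 2) ^ 2 := by
        rw [le_div_iff₀ (by positivity)]
        linarith
      refine h9.trans (le_of_eq ?_)
      rw [hM]
      field_simp
      ring
    refine ⟨key _ _ hx hA0.le h2, ?_⟩
    have := key _ _ hA0.le hx h1
    linarith
  have hφC : ∀ z : ℂ, ‖z‖ = 1 + d / 2 → ‖φ z‖ ≤ A * M := fun z hz => (hbd z hz.le).1
  have hψC' : ∀ z : ℂ, ‖z‖ ≤ 1 + d / 2 → ‖ψ z‖ ≤ A⁻¹ * M := by
    intro z hz
    have h1 := (hbd z hz).2
    have hx : 0 < ‖φ z‖ := norm_pos_iff.mpr (Complex.exp_ne_zero _)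
    rw [hψn z, inv_mul_eq_div, le_div_iff₀ hA0, inv_mul_le_iff₀ hx]
    linarith
  have hr1 : 1 < 1 + d / 2 := by linarith
  have hr2 : 1 + d / 2 < 1 + d := by linarith
  obtain ⟨a, ha⟩ := tay_POL hr1 hr2 hφd (by positivity) hφC
  obtain ⟨b, hb⟩ := tay_POL hr1 hr2 hψd (by positivity) (fun z hz => hψC' z hz.le)
  have hnum := num_POL d L hd hd1 hL
  set δ : ℝ := M * ((1 + d / 2) ^ L)⁻¹ / (1 + d / 2 - 1) with hδ
  have hδ0 : 0 ≤ δ := by
    have : 0 < 1 + d / 2 - 1 := by linarith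
    positivity
  have hMδ : 16 * M * δ ≤ 1 := by
    have e1 : 16 * M * δ = 8192 / d ^ 5 * ((1 + d / 2) ^ L)⁻¹ := by
      rw [hδ, hM]
      have : 1 + d / 2 - 1 = d / 2 := by ring
      rw [this]
      field_simp
      norm_num
    rw [e1, mul_inv_le_iff₀ (by positivity), one_mul]
    exact hnum
  have hδ1 : δ ≤ 1 / 256 := by nlinarith
  -- the polynomial
  refine ⟨(∑ k ∈ Finset.range (L + 1), Polynomial.monomial (L - k) (conj (a k))) *
    (∑ k ∈ Finset.range (L + 1), Polynomial.monomial k (b k)), ?_⟩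
  intro z hz
  have hz00 : z ≠ 0 := by
    intro h0; rw [h0, norm_zero] at hz; norm_num at hz
  have hzb : z ∈ ball (0 : ℂ) (1 + d) := by rw [mem_ball_zero_iff, hz]; linarith
  set φL : ℂ := ∑ k ∈ Finset.range (L + 1), a k * z ^ k with hφL
  set ψL : ℂ := ∑ k ∈ Finset.range (L + 1), b k * z ^ k with hψL
  have hconj : conj z = z⁻¹ := by
    rw [Complex.inv_def, Complex.normSq_eq_norm_sq, hz]; simp
  have hrev : (∑ k ∈ Finset.range (L + 1), Polynomial.monomial (L - k) (conj (a k))).eval z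
      * (z ^ L)⁻¹ = conj φL := by
    rw [Polynomial.eval_finsetSum, Finset.sum_mul, hφL, map_sum]
    refine Finset.sum_congr rfl (fun k hk => ?_)
    rw [Finset.mem_range] at hk
    rw [Polynomial.eval_monomial, map_mul, map_pow, hconj, mul_assoc]
    congr 1
    have : z ^ L = z ^ (L - k) * z ^ k := by rw [← pow_add]; congr 1; omega
    rw [this, inv_pow]
    field_simp
  have hev : (∑ k ∈ Finset.range (L + 1), Polynomial.monomial k (b k)).eval z = ψL := by
    rw [Polynomial.eval_finsetSum, hψL]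
    refine Finset.sum_congr rfl (fun k _ => ?_)
    rw [Polynomial.eval_monomial]
  rw [Polynomial.eval_mul, hev]
  have e1 : deriv f z * ((∑ k ∈ Finset.range (L + 1),
      Polynomial.monomial (L - k) (conj (a k))).eval z * ψL) * (z ^ L)⁻¹
      = φ z * φ z * (conj φL * ψL) := by
    rw [hφ2 z hzb, ← hrev]; ring
  have e2 : (‖deriv f z‖ : ℂ) = φ z * φ z * (conj (φ z) * ψ z) := by
    have h1 : φ z * φ z * (conj (φ z) * ψ z) = (φ z * conj (φ z)) * (φ z * ψ z) := by ring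
    rw [h1, hφψ z, mul_one, Complex.mul_conj, Complex.normSq_eq_norm_sq, ← hφn z hzb]
    push_cast
    ring
  have e3 : φ z * φ z * (conj φL * ψL) - φ z * φ z * (conj (φ z) * ψ z)
      = deriv f z * ((conj (φL - φ z)) * ψL + conj (φ z) * (ψL - ψ z)) := by
    rw [← hφ2 z hzb, map_sub]; ring
  rw [e1, e2, e3, norm_mul, mul_comm (1 / 4 : ℝ)]
  have hφz1 := (hbd z (by rw [hz]; linarith)).1
  have hψz1 := hψC' z (by rw [hz]; linarith)
  have t1 : ‖φL - φ z‖ ≤ A * δ := by
    rw [norm_sub_rev]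
    refine (ha L z hz).trans (le_of_eq ?_)
    rw [hδ]; ring
  have t2 : ‖ψL - ψ z‖ ≤ A⁻¹ * δ := by
    rw [norm_sub_rev]
    refine (hb L z hz).trans (le_of_eq ?_)
    rw [hδ]; ring
  have t3 : ‖ψL‖ ≤ A⁻¹ * (M + δ) := by
    calc ‖ψL‖ = ‖(ψL - ψ z) + ψ z‖ := by rw [sub_add_cancel]
      _ ≤ ‖ψL - ψ z‖ + ‖ψ z‖ := norm_add_le _ _
      _ ≤ A⁻¹ * δ + A⁻¹ * M := add_le_add t2 hψz1
      _ = A⁻¹ * (M + δ) := by ring
  refine mul_le_mul_of_nonneg_left ?_ (norm_nonneg _)
  calc ‖conj (φL - φ z) * ψL + conj (φ z) * (ψL - ψ z)‖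
      ≤ ‖φL - φ z‖ * ‖ψL‖ + ‖φ z‖ * ‖ψL - ψ z‖ := by
        refine (norm_add_le _ _).trans ?_
        rw [norm_mul, norm_mul, norm_conj, norm_conj]
    _ ≤ (A * δ) * (A⁻¹ * (M + δ)) + (A * M) * (A⁻¹ * δ) := by
        refine add_le_add ?_ ?_
        · exact mul_le_mul t1 t3 (norm_nonneg _) (by positivity)
        · exact mul_le_mul hφz1 t2 (norm_nonneg _) (by positivity)
    _ = δ * (M + δ) + M * δ := by field_simp
    _ ≤ 1 / 4 := by nlinarith

theorem hPol (hD2 : StD2) : StPol := by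
  intro d f N L hd hd1 hf hS hN hNL hL
  obtain ⟨p, hp⟩ := core_POL d f L hD2 hd hd1 hf hL
  have hR : 0 < 1 + d := by linarith
  have hN0 : 0 < N := hN
  have hne : ∀ z ∈ ball (0 : ℂ) (1 + d), deriv f z ≠ 0 := fun z hz =>
    Pool.TU.X5.deriv_ne_zero_of_injOn isOpen_ball hf.1 hf.2 hz
  -- symmetry of the derivative on the closed disc
  have hder : ∀ ω : ℂ, ω ^ N = 1 → ∀ z : ℂ, ‖z‖ ≤ 1 → deriv f (ω * z) = deriv f z := by
    intro ω hω
    have hωn : ‖ω‖ = 1 := by
      have := congrArg norm hω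
      rw [norm_pow, norm_one] at this
      exact (pow_eq_one_iff_of_nonneg (norm_nonneg _) hN0.ne').mp this
    have hω0 : ω ≠ 0 := by
      intro h0; rw [h0, norm_zero] at hωn; norm_num at hωn
    have hopen : ∀ z ∈ ball (0 : ℂ) 1, deriv f (ω * z) = deriv f z := by
      intro z hz
      have h1 : (fun x => f (ω * x)) =ᶠ[𝓝 z] fun x => ω * f x := by
        filter_upwards [isOpen_ball.mem_nhds hz] with x hx
        exact hS ω x hω hx
      have hz1 : ‖z‖ < 1 := by rwa [mem_ball_zero_iff] at hz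
      have hd1' : DifferentiableAt ℂ f (ω * z) := hf.1.differentiableAt
        (isOpen_ball.mem_nhds (by rw [mem_ball_zero_iff, norm_mul, hωn, one_mul]; linarith))
      have hd2' : DifferentiableAt ℂ f z := hf.1.differentiableAt
        (isOpen_ball.mem_nhds (by rw [mem_ball_zero_iff]; linarith))
      have e1 : HasDerivAt (fun x => f (ω * x)) (deriv f (ω * z) * ω) z := by
        have hm : HasDerivAt (fun x : ℂ => ω * x) ω z := by
          simpa using (hasDerivAt_id z).const_mul ω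
        exact HasDerivAt.comp z hd1'.hasDerivAt hm
      have e2 : HasDerivAt (fun x => ω * f x) (ω * deriv f z) z := hd2'.hasDerivAt.const_mul ω
      have e3 := (e1.congr_of_eventuallyEq h1.symm).unique e2
      have e4 : ω * deriv f (ω * z) = ω * deriv f z := by rw [← e3]; ring
      exact mul_left_cancel₀ hω0 e4
    intro z hz
    have hc1 : ContinuousOn (fun x => deriv f (ω * x) - deriv f x) (closedBall 0 1) := by
      have hcd : ContinuousOn (deriv f) (ball 0 (1 + d)) :=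
        (hf.1.deriv isOpen_ball).continuousOn
      refine ContinuousOn.sub ?_ ?_
      · refine hcd.comp (continuous_const.mul continuous_id).continuousOn ?_
        intro x hx
        rw [mem_closedBall_zero_iff] at hx
        rw [mem_ball_zero_iff, norm_mul, hωn, one_mul]
        linarith
      · refine hcd.mono ?_
        intro x hx
        rw [mem_closedBall_zero_iff] at hx
        rw [mem_ball_zero_iff]
        linarith
    have hcl : closedBall (0 : ℂ) 1 ⊆ closure (ball 0 1) := by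
      rw [closure_ball _ one_ne_zero]
    have hEq : EqOn (fun x => deriv f (ω * x) - deriv f x) (fun _ => 0) (closedBall 0 1) := by
      refine Set.EqOn.of_subset_closure (s := ball 0 1) ?_ hc1 continuousOn_const
        ball_subset_closedBall hcl
      intro x hx
      simp only
      rw [hopen x hx, sub_self]
    have := hEq (by rw [mem_closedBall_zero_iff]; exact hz : z ∈ closedBall (0 : ℂ) 1)
    simp only at this
    exact sub_eq_zero.mp this
  -- average over the roots of unity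
  set S := Polynomial.nthRootsFinset N (1 : ℂ) with hSdef
  have hmem : ∀ ω : ℂ, ω ∈ S ↔ ω ^ N = 1 := fun ω => Polynomial.mem_nthRootsFinset hN0 1
  have hne1 : S.Nonempty := ⟨1, (hmem 1).mpr (one_pow N)⟩
  have hcard : (0 : ℝ) < S.card := by exact_mod_cast hne1.card_pos
  have hcardC : (S.card : ℂ) ≠ 0 := by exact_mod_cast hne1.card_pos.ne'
  set q : Polynomial ℂ := Polynomial.C ((S.card : ℂ)⁻¹) *
    ∑ ω ∈ S, p.comp (Polynomial.C ω * Polynomial.X) with hq
  have hqe : ∀ z : ℂ, q.eval z = (S.card : ℂ)⁻¹ * ∑ ω ∈ S, p.eval (ω * z) := by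
    intro z
    rw [hq, Polynomial.eval_mul, Polynomial.eval_C, Polynomial.eval_finsetSum]
    congr 1
    refine Finset.sum_congr rfl (fun ω _ => ?_)
    rw [Polynomial.eval_comp, Polynomial.eval_mul, Polynomial.eval_C, Polynomial.eval_X]
  have hq1 : ∀ z : ℂ, ‖z‖ = 1 →
      ‖deriv f z * q.eval z * (z ^ L)⁻¹ - (‖deriv f z‖ : ℂ)‖ ≤ 1 / 4 * ‖deriv f z‖ := by
    intro z hz
    have h1 : deriv f z * q.eval z * (z ^ L)⁻¹ - (‖deriv f z‖ : ℂ)
        = (S.card : ℂ)⁻¹ * ∑ ω ∈ S,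
          (deriv f (ω * z) * p.eval (ω * z) * ((ω * z) ^ L)⁻¹ - (‖deriv f (ω * z)‖ : ℂ)) := by
      have h2 : ∀ ω ∈ S,
          (deriv f (ω * z) * p.eval (ω * z) * ((ω * z) ^ L)⁻¹ - (‖deriv f (ω * z)‖ : ℂ))
          = deriv f z * (z ^ L)⁻¹ * p.eval (ω * z) - (‖deriv f z‖ : ℂ) := by
        intro ω hω
        have hω' := (hmem ω).mp hω
        have hωL : ω ^ L = 1 := by
          obtain ⟨m, rfl⟩ := hNL
          rw [pow_mul, hω', one_pow]
        rw [hder ω hω' z hz.le, mul_pow, hωL, one_mul]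
        ring
      rw [Finset.sum_congr rfl h2, Finset.sum_sub_distrib, ← Finset.mul_sum, Finset.sum_const,
        nsmul_eq_mul, hqe, mul_sub, ← mul_assoc ((S.card : ℂ)⁻¹) (S.card : ℂ),
        inv_mul_cancel₀ hcardC, one_mul]
      ring
    rw [h1, norm_mul, norm_inv, Complex.norm_natCast]
    have h3 : ‖∑ ω ∈ S,
        (deriv f (ω * z) * p.eval (ω * z) * ((ω * z) ^ L)⁻¹ - (‖deriv f (ω * z)‖ : ℂ))‖
        ≤ S.card * (1 / 4 * ‖deriv f z‖) := by
      refine (norm_sum_le _ _).trans ?_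
      have h4 : ∀ ω ∈ S,
          ‖deriv f (ω * z) * p.eval (ω * z) * ((ω * z) ^ L)⁻¹ - (‖deriv f (ω * z)‖ : ℂ)‖
          ≤ 1 / 4 * ‖deriv f z‖ := by
        intro ω hω
        have hω' := (hmem ω).mp hω
        have hωn : ‖ω‖ = 1 := by
          have := congrArg norm hω'
          rw [norm_pow, norm_one] at this
          exact (pow_eq_one_iff_of_nonneg (norm_nonneg _) hN0.ne').mp this
        have := hp (ω * z) (by rw [norm_mul, hωn, hz, one_mul])
        rwa [hder ω hω' z hz.le] at this ⊢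
      refine (Finset.sum_le_sum h4).trans (le_of_eq ?_)
      rw [Finset.sum_const, nsmul_eq_mul]
    rw [inv_mul_le_iff₀ hcard]
    exact h3
  refine ⟨q, hq1, ?_, ?_⟩
  · -- maximum principle
    have hsph : ∀ z ∈ frontier (ball (0 : ℂ) 1), ‖q.eval z‖ ≤ 5 / 4 := by
      intro z hz
      rw [frontier_ball _ one_ne_zero, mem_sphere_zero_iff_norm] at hz
      have h1 := hq1 z hz
      have hfz : 0 < ‖deriv f z‖ := norm_pos_iff.mpr (hne z (by
        rw [mem_ball_zero_iff, hz]; linarith))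
      have h2 : ‖deriv f z * q.eval z * (z ^ L)⁻¹‖ = ‖deriv f z‖ * ‖q.eval z‖ := by
        rw [norm_mul, norm_mul, norm_inv, norm_pow, hz, one_pow, inv_one, mul_one]
      have h3 : ‖deriv f z * q.eval z * (z ^ L)⁻¹‖ ≤ 5 / 4 * ‖deriv f z‖ := by
        have h4 := norm_sub_norm_le (deriv f z * q.eval z * (z ^ L)⁻¹) (‖deriv f z‖ : ℂ)
        rw [Complex.norm_real, norm_norm] at h4
        linarith
      rw [h2] at h3
      nlinarith
    intro z hz
    have hdc : DiffContOnCl ℂ (fun z => q.eval z) (ball 0 1) :=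
      (q.differentiable).diffContOnCl
    have hcl : z ∈ closure (ball (0 : ℂ) 1) := by
      rw [closure_ball _ one_ne_zero, mem_closedBall_zero_iff]; exact hz
    exact Complex.norm_le_of_forall_mem_frontier_norm_le isBounded_ball hdc hsph hcl
  · intro ω z hω
    have hω0 : ω ≠ 0 := by
      intro h0
      rw [h0, zero_pow hN0.ne'] at hω
      exact zero_ne_one hω
    rw [hqe, hqe]
    congr 1
    refine Finset.sum_bij (fun x _ => x * ω) ?_ ?_ ?_ ?_
    · intro x hx
      rw [hmem] at hx ⊢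
      rw [mul_pow, hx, hω, one_mul]
    · intro x _ y _ hxy
      exact mul_right_cancel₀ hω0 hxy
    · intro y hy
      rw [hmem] at hy
      refine ⟨y * ω⁻¹, ?_, ?_⟩
      · rw [hmem, mul_pow, hy, inv_pow, hω, inv_one, one_mul]
      · rw [mul_assoc, inv_mul_cancel₀ hω0, mul_one]
    · intro x _
      rw [mul_assoc]

end Pool.Agent.Helper62.LT
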