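import Pool.Agent.Helper69.LT.St
import Pool.Agent.Helper84.LE.BWT
import Pool.Agent.Helper84.LE.BGR
import Pool.Agent.Helper84.LE.BKP
import Pool.Agent.Helper84.LE.M_Rec
import Pool.Agent.Helper84.LE.M_Psi

/-!
# Project LT, module Maj: one step of the majorants
-/

set_option autoImplicit false

open scoped BigOperators ENNReal
open Pool.LE Pool.NL

namespace Pool.LT

namespace MajM

variable {V : Type} [DecidableEq V]

theorem kcsum {T K q : V → V → ENNReal} {B : ENNReal} (h : WK (kc T T) K q B) (b w : V) :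
    ∑' s' : V, kc T T w s' * kp K 24 b s' ≤ kp K 32 b w := by
  refine le_trans ?_ (RecM.sum_K h b w)
  exact ENNReal.tsum_le_tsum fun s' => mul_le_mul' (RecM.T_le_K h w s') le_rfl

open Classical in
/-- one directed edge -/
theorem edge (hNl : SNl) (hLev : SLev)
    {L : Finset V} {ρ k : V → ℝ} {lam : ENNReal}
    {E : Finset (Sym2 V)} {p : ℝ} {T K q : V → V → ENNReal} {nbf : V → Finset V}
    {B eps eta : ENNReal} {D : ℕ} (hE : Env0 E p L T K q nbf k B eps eta D)
    (hρ : ∀ y, 0 ≤ ρ y ∧ ρ y ≤ 1)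
    {X : Type} {qx : V → X → ENNReal} (hq : ∀ v u b x, b ∈ nbf u → qx v x ≤ 4 * q v u * qx b x)
    {Φ : Set V → V → X → DualNumber ℝ} {c : ENNReal} (hΦ : Maj K qx lam Φ c)
    (A : Set V) (v u b : V) (hb : b ∈ nbf u) :
    ∑' x : X, qx v x * Nl lam (p • Ex E p (fun ω =>
        vA L (dw ρ k) (ω.erase s(u, b)) A v u * Φ (cl ω u b v) b x)) ≤
      ∑' s : V, if s ∈ A then ∑' w : V,
        (4 * c * (1 + 21 * lam * eta)) * (q v u * core0 (kc T T) v s u w *
          (ENNReal.ofReal p * kp K 32 b w)) else 0 := by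
  obtain ⟨-, -, -, -, hmul, hsm, -, -, hEx, -⟩ := hNl lam
  have p0 := hE.p0
  have p1 : p ≤ 1 := le_trans hE.p1 (by norm_num)
  -- pointwise in x
  have h1 : ∀ x : X, qx v x * Nl lam (p • Ex E p (fun ω =>
        vA L (dw ρ k) (ω.erase s(u, b)) A v u * Φ (cl ω u b v) b x)) ≤
      ENNReal.ofReal p * (4 * q v u) * ExE E p (fun ω =>
        Nl lam (vA L (dw ρ k) (ω.erase s(u, b)) A v u) *
          (qx b x * Nl lam (Φ (cl ω u b v) b x))) := by
    intro x
    have h2 : Nl lam (p • Ex E p (fun ω =>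
        vA L (dw ρ k) (ω.erase s(u, b)) A v u * Φ (cl ω u b v) b x)) ≤
        ENNReal.ofReal p * ExE E p (fun ω =>
          Nl lam (vA L (dw ρ k) (ω.erase s(u, b)) A v u) * Nl lam (Φ (cl ω u b v) b x)) := by
      refine (hsm p _ p0).le.trans (mul_le_mul' le_rfl ?_)
      refine (hEx V E p _ p0 p1).trans ?_
      exact ExE_mono fun ω _ => hmul _ _
    calc qx v x * Nl lam (p • Ex E p (fun ω =>
          vA L (dw ρ k) (ω.erase s(u, b)) A v u * Φ (cl ω u b v) b x))
        ≤ (4 * q v u * qx b x) * (ENNReal.ofReal p * ExE E p (fun ω =>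
          Nl lam (vA L (dw ρ k) (ω.erase s(u, b)) A v u) * Nl lam (Φ (cl ω u b v) b x))) :=
          mul_le_mul' (hq v u b x hb) h2
      _ = ENNReal.ofReal p * (4 * q v u) * (qx b x * ExE E p (fun ω =>
          Nl lam (vA L (dw ρ k) (ω.erase s(u, b)) A v u) * Nl lam (Φ (cl ω u b v) b x))) := by
          ring
      _ = ENNReal.ofReal p * (4 * q v u) * ExE E p (fun ω =>
          Nl lam (vA L (dw ρ k) (ω.erase s(u, b)) A v u) *
            (qx b x * Nl lam (Φ (cl ω u b v) b x))) := by
          rw [← ExE_mul_left]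
          congr 1
          refine ExE_congr fun ω _ => ?_
          ring
  refine (ENNReal.tsum_le_tsum h1).trans ?_
  rw [ENNReal.tsum_mul_left, ← ExE_tsum]
  -- the sum over x inside
  have h3 : ExE E p (fun ω => ∑' x : X, Nl lam (vA L (dw ρ k) (ω.erase s(u, b)) A v u) *
      (qx b x * Nl lam (Φ (cl ω u b v) b x))) ≤
      ∑' s' : V, (c * kp K 24 b s') * ExE E p (fun ω =>
        Nl lam (vA L (dw ρ k) (ω.erase s(u, b)) A v u) *
          if con (ω.erase s(u, b)) v s' then 1 else 0) := by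
    have h4 : ∀ ω ⊆ E, (∑' x : X, Nl lam (vA L (dw ρ k) (ω.erase s(u, b)) A v u) *
        (qx b x * Nl lam (Φ (cl ω u b v) b x))) ≤
        ∑' s' : V, (c * kp K 24 b s') * (Nl lam (vA L (dw ρ k) (ω.erase s(u, b)) A v u) *
          if con (ω.erase s(u, b)) v s' then 1 else 0) := by
      intro ω _
      rw [ENNReal.tsum_mul_left]
      refine (mul_le_mul' le_rfl (hΦ (cl ω u b v) b)).trans (le_of_eq ?_)
      rw [← ENNReal.tsum_mul_left]
      refine tsum_congr fun s' => ?_
      by_cases hs : con (ω.erase s(u, b)) v s'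
      · have hs' : s' ∈ cl ω u b v := hs
        rw [if_pos hs, if_pos hs', mul_one, mul_comm]
      · have hs' : s' ∉ cl ω u b v := hs
        rw [if_neg hs, if_neg hs', mul_zero, mul_zero]
    refine (ExE_mono h4).trans (le_of_eq ?_)
    rw [ExE_tsum]
    exact tsum_congr fun s' => ExE_mul_left _ _ _ _
  refine (mul_le_mul' le_rfl h3).trans ?_
  -- the level estimate
  have h5 : ∀ s' : V, ExE E p (fun ω =>
        Nl lam (vA L (dw ρ k) (ω.erase s(u, b)) A v u) *
          if con (ω.erase s(u, b)) v s' then 1 else 0) ≤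
      (1 + 21 * lam * eta) * ∑' s : V, if s ∈ A then
        ∑' w : V, core0 (kc T T) v s u w * kc T T w s' else 0 := fun s' =>
    hLev V L ρ k lam E p T K q nbf B eps eta D hE hρ (fun ω => ω.erase s(u, b))
      (fun ω => Finset.erase_subset _ _) A v u s'
  refine (mul_le_mul' le_rfl (ENNReal.tsum_le_tsum fun s' =>
    mul_le_mul' (le_refl (c * kp K 24 b s')) (h5 s'))).trans ?_
  have h6 : ∀ s' : V, (c * kp K 24 b s') * ((1 + 21 * lam * eta) * ∑' s : V, if s ∈ A then
        ∑' w : V, core0 (kc T T) v s u w * kc T T w s' else 0) =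
      ∑' s : V, if s ∈ A then ∑' w : V, (c * (1 + 21 * lam * eta)) *
        (core0 (kc T T) v s u w * (kc T T w s' * kp K 24 b s')) else 0 := by
    intro s'
    rw [← mul_assoc, ← ENNReal.tsum_mul_left]
    refine tsum_congr fun s => ?_
    split_ifs
    · rw [← ENNReal.tsum_mul_left]
      exact tsum_congr fun w => by ring
    · rw [mul_zero]
  rw [tsum_congr h6, ENNReal.tsum_comm, ← ENNReal.tsum_mul_left]
  refine ENNReal.tsum_le_tsum fun s => ?_
  by_cases hs : s ∈ A
  · simp only [if_pos hs]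
    rw [ENNReal.tsum_comm, ← ENNReal.tsum_mul_left]
    refine ENNReal.tsum_le_tsum fun w => ?_
    rw [ENNReal.tsum_mul_left, ENNReal.tsum_mul_left]
    calc ENNReal.ofReal p * (4 * q v u) * (c * (1 + 21 * lam * eta) * (core0 (kc T T) v s u w *
          ∑' s' : V, kc T T w s' * kp K 24 b s'))
        ≤ ENNReal.ofReal p * (4 * q v u) * (c * (1 + 21 * lam * eta) * (core0 (kc T T) v s u w *
          kp K 32 b w)) :=
          mul_le_mul' le_rfl (mul_le_mul' le_rfl (mul_le_mul' le_rfl (kcsum hE.wk b w)))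
      _ = (4 * c * (1 + 21 * lam * eta)) * (q v u * core0 (kc T T) v s u w *
          (ENNReal.ofReal p * kp K 32 b w)) := by ring
  · simp only [if_neg hs]
    rw [tsum_zero, mul_zero]

end MajM

open Classical in
/-- (MAJ) -/
theorem hMaj (hNl : SNl) (hLev : SLev) (hMass : SMass) : SMaj := by
  intro V _ L ρ k lam E p T K q nbf B eps eta D hE hρ X qx hq Φ c hΦ A v
  have hsum := (hNl lam).2.2.2.2.2.2.2.1
  -- split into directed edges
  have h1 : ∀ x : X, qx v x * Nl lam (Lop E p L (dw ρ k) Φ A v x) ≤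
      ∑ ub ∈ drt E, qx v x * Nl lam (p • Ex E p (fun ω =>
        vA L (dw ρ k) (ω.erase s(ub.1, ub.2)) A v ub.1 * Φ (cl ω ub.1 ub.2 v) ub.2 x)) := by
    intro x
    rw [← Finset.mul_sum]
    exact mul_le_mul' le_rfl (hsum (V × V) (drt E) _)
  refine (ENNReal.tsum_le_tsum h1).trans ?_
  rw [Summable.tsum_finsetSum (fun _ _ => ENNReal.summable)]
  refine (Finset.sum_le_sum fun ub hub => MajM.edge hNl hLev hE hρ hq hΦ A v ub.1 ub.2
    (hE.nbE _ _ (mem_drt'.1 hub))).trans ?_
  refine (psi_sum_le (drt E) nbf (fun ub hub => hE.nbE _ _ (mem_drt'.1 hub))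
    (fun u b => ∑' s : V, if s ∈ A then ∑' w : V,
        (4 * c * (1 + 21 * lam * eta)) * (q v u * core0 (kc T T) v s u w *
          (ENNReal.ofReal p * kp K 32 b w)) else 0)).trans ?_
  have h2 : ∀ u : V, (∑ b ∈ nbf u, ∑' s : V, if s ∈ A then ∑' w : V,
        (4 * c * (1 + 21 * lam * eta)) * (q v u * core0 (kc T T) v s u w *
          (ENNReal.ofReal p * kp K 32 b w)) else 0) ≤
      ∑' s : V, if s ∈ A then ∑' w : V,
        (4 * c * (1 + 21 * lam * eta) * eps) * (q v u * core0 (kc T T) v s u w) else 0 := by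
    intro u
    rw [← Summable.tsum_finsetSum (fun _ _ => ENNReal.summable)]
    refine ENNReal.tsum_le_tsum fun s => ?_
    by_cases hs : s ∈ A
    · simp only [if_pos hs]
      rw [← Summable.tsum_finsetSum (fun _ _ => ENNReal.summable)]
      refine ENNReal.tsum_le_tsum fun w => ?_
      rw [← Finset.mul_sum, ← Finset.mul_sum]
      calc 4 * c * (1 + 21 * lam * eta) * (q v u * core0 (kc T T) v s u w *
            ∑ b ∈ nbf u, ENNReal.ofReal p * kp K 32 b w)
          ≤ 4 * c * (1 + 21 * lam * eta) * (q v u * core0 (kc T T) v s u w * eps) :=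
            mul_le_mul' le_rfl (mul_le_mul' le_rfl (hE.heps u w))
        _ = 4 * c * (1 + 21 * lam * eta) * eps * (q v u * core0 (kc T T) v s u w) := by ring
    · simp only [if_neg hs, Finset.sum_const_zero, le_refl]
  refine (ENNReal.tsum_le_tsum h2).trans ?_
  rw [ENNReal.tsum_comm]
  refine ENNReal.tsum_le_tsum fun s => ?_
  by_cases hs : s ∈ A
  · simp only [if_pos hs]
    have h3 := hMass V (kc T T) K q B hE.wk v s
    calc ∑' u : V, ∑' w : V, (4 * c * (1 + 21 * lam * eta) * eps) *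
          (q v u * core0 (kc T T) v s u w)
        = (4 * c * (1 + 21 * lam * eta) * eps) *
          ∑' u : V, ∑' w : V, q v u * core0 (kc T T) v s u w := by
          rw [← ENNReal.tsum_mul_left]
          exact tsum_congr fun u => ENNReal.tsum_mul_left
      _ ≤ (4 * c * (1 + 21 * lam * eta) * eps) * (10 * B * kp K 24 v s) :=
          mul_le_mul' le_rfl h3
      _ = c * (40 * (1 + 21 * lam * eta) * B * eps) * kp K 24 v s := by ring
  · simp only [if_neg hs]
    rw [tsum_zero]

end Pool.LT
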